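import Pool.Agent.Helper89.SP.Defs
import Pool.Agent.Helper89.FA.Main

/-!
Project SP, module SP-12: two coordinates with sum at least `t`.
-/

set_option autoImplicit false

open MeasureTheory Set Real Slab
open Pool.Agent.Helper88.Slab (prob)

namespace Pool.Agent.Helper89.SP

theorem regionA_perm {L L' : List ℝ} (h : L.Perm L') (t : ℝ) : T L t = T L' t := by
  unfold T
  rw [AL_perm h, h.length_eq]

/-- the tail in terms of `prob`, when `prob` is positive -/
theorem regionA_bridge {n : ℕ} (a : Fin n → ℝ) {t : ℝ} (ht : 0 ≤ t) (hpos : 0 < prob a t) :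
    T (List.ofFn a) t = 1 - prob a t := by
  have h1 := Slab.volume_slab n a t ht
  rw [Pool.Agent.Helper88.Slab.volume_slab_pi] at h1
  have h2 := congrArg ENNReal.toReal h1
  rw [ENNReal.toReal_mul, ENNReal.toReal_ofReal hpos.le, ENNReal.toReal_ofReal'] at h2
  have h3 : (2 ^ n : ENNReal).toReal = 2 ^ n := by simp
  rw [h3] at h2
  have h4 : (0 : ℝ) < 2 ^ n * prob a t := by positivity
  have h5 : 2 ^ n * prob a t = 2 ^ n - 2 * AL (List.ofFn a) H t := by
    rcases le_total (2 ^ n - 2 * AL (List.ofFn a) H t) 0 with h | h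
    · rw [max_eq_right h] at h2
      linarith
    · rwa [max_eq_left h] at h2
  unfold T
  rw [List.length_ofFn, div_eq_iff (by positivity)]
  linarith

/-- the second case of `FA.direct`, for all `t` up to `√2` -/
theorem regionA_vec {n : ℕ} (a : Fin n → ℝ) (ha : ∑ j, a j ^ 2 = 1) {t : ℝ} (h1 : 1.0129 ≤ t)
    (h2 : t ≤ √2) (hM2 : FA.ff t ≤ 0) {i j : Fin n} (hij : i ≠ j) (hs : t ≤ |a i| + |a j|) :
    1 - (3 - √3 * t) ^ 3 / 24 ≤ prob a t := by
  obtain ⟨h2a, h2b⟩ := FA.sqrt2_b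
  have hsum : a i ^ 2 + a j ^ 2 ≤ 1 := by
    rw [← ha]
    have := Finset.sum_le_sum_of_subset_of_nonneg (Finset.subset_univ ({i, j} : Finset (Fin n)))
      (f := fun l => a l ^ 2) (fun l _ _ => sq_nonneg _)
    rwa [Finset.sum_pair hij] at this
  have hpi : |a i| ≤ 1 := by
    rw [abs_le_one_iff_mul_self_le_one]; nlinarith [sq_nonneg (a j)]
  have hpj : |a j| ≤ 1 := by
    rw [abs_le_one_iff_mul_self_le_one]; nlinarith [sq_nonneg (a i)]
  have hi : a i ≠ 0 := by
    intro h0; rw [h0, abs_zero] at hs; linarith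
  have hj : a j ≠ 0 := by
    intro h0; rw [h0, abs_zero] at hs; linarith
  have hp : 0 < |a i| := abs_pos.mpr hi
  have hq : 0 < |a j| := abs_pos.mpr hj
  obtain ⟨k1, k2⟩ := FA.prob_two a i j hij ha (by linarith) hi hj hs
  rcases FA.algebra_two (t := t) (M := (3 - √3 * t) ^ 3 / 24) h1 h2 rfl
    (by unfold FA.ff at hM2; linarith) hp hq (by rw [sq_abs, sq_abs]; exact hsum) hs with h | ⟨z, hz, hz2, h⟩
  · refine le_trans ?_ k1
    rw [sq_abs, sq_abs] at h
    have : (3 * (|a i| + |a j| - t) ^ 2 + (1 - a i ^ 2 - a j ^ 2)) / (12 * (|a i| * |a j|)) ≤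
        (3 - √3 * t) ^ 3 / 24 := by
      rw [div_le_iff₀ (by positivity)]
      linarith
    linarith
  · rw [sq_abs, sq_abs] at hz2
    refine le_trans ?_ (k2 z hz hz2)
    have : (z + (|a i| + |a j| - t)) ^ 3 / (24 * (|a i| * |a j|) * z) ≤ (3 - √3 * t) ^ 3 / 24 := by
      rw [div_le_iff₀ (by positivity)]
      linarith
    linarith

theorem regionA {L : List ℝ} (_hL : ∀ x ∈ L, 0 ≤ x) (h1 : sq L = 1) {t : ℝ} (ht : 1.02 ≤ t)
    (ht2 : t ≤ √2) {p q : ℝ} {l : List ℝ} (hp : L.Perm (p :: q :: l)) (hpq : t ≤ p + q) :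
    T L t ≤ Mf t := by
  have hsq : sq (p :: q :: l) = 1 := by
    rw [← h1]
    unfold sq
    exact (List.Perm.sum_eq (hp.map _)).symm
  set a : Fin (p :: q :: l).length → ℝ := fun i => (p :: q :: l).get i with ha
  have hof : List.ofFn a = p :: q :: l := List.ofFn_get _
  have hsum : ∑ j, a j ^ 2 = 1 := by
    rw [← hsq]
    unfold sq
    conv_rhs => rw [← hof]
    rw [List.map_ofFn, List.sum_ofFn]
    rfl
  obtain ⟨t₁, h3, h4, h5⟩ := FA.exists_t1
  have hneg := FA.ff_neg (t := t) h3 h5 (by linarith) ht2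
  have hlen : (p :: q :: l).length = l.length + 2 := by simp
  have h0 : 0 < (p :: q :: l).length := by omega
  have h01 : 1 < (p :: q :: l).length := by omega
  have key := regionA_vec a hsum (t := t) (by linarith) ht2 hneg.le
    (i := ⟨0, h0⟩) (j := ⟨1, h01⟩) (by simp) (by
      have e0 : a ⟨0, h0⟩ = p := by simp [ha]
      have e1 : a ⟨1, h01⟩ = q := by simp [ha]
      rw [e0, e1]
      exact hpq.trans (add_le_add (le_abs_self _) (le_abs_self _)))
  have hM : Mf t < 1 := by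
    obtain ⟨h3a, h3b⟩ := FA.sqrt3_b
    have e1 : 3 - √3 * t ≤ 1.3 := by nlinarith
    have e2 : 0 ≤ 3 - √3 * t := by
      obtain ⟨h2a, h2b⟩ := FA.sqrt2_b
      nlinarith
    have e3 : (3 - √3 * t) ^ 3 ≤ 1.3 ^ 3 := pow_le_pow_left₀ e2 e1 3
    unfold Mf
    norm_num at e3
    linarith
  rw [regionA_perm hp t, ← hof, regionA_bridge a (by linarith) (by unfold Mf at hM; linarith)]
  unfold Mf
  linarith

end Pool.Agent.Helper89.SP
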